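import Pool.Agent.P.MP_c09211_an.Fall

set_option autoImplicit false

namespace Pool.Agent.Results.MP_c09211_an.Tail

open Pool.Agent.P.MP_c09211_an

theorem result (n m : ℕ) (h1 : 2 ≤ m) (h2 : m < n) (h : 2 * (n + 1 - m) ^ 2 ≤ 3 * (n + 1)) :
    A (m + 1) n < A m n :=
  fall h1 h2 h

end Pool.Agent.Results.MP_c09211_an.Tail
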